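import Pool.Agent.SZG.StmtsD

/-!
# SZG row MNG: a matrix of small length in groups of rows, with weights (helper91; after
`Helper49_THS/MNN.lean`)
-/

set_option autoImplicit false

namespace Pool.Agent.SZG.H91

open scoped BigOperators

theorem v_sign {K : Type} [Field K] (v : AbsoluteValue K ℝ) (s : ℤˣ) : v ((s : ℤ) : K) = 1 := by
  rcases Int.units_eq_one_or s with h | h
  · rw [h]; simp
  · rw [h]; simp

/-- the number of the columns on the right which are matched with a row on the right -/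
theorem card_right {α ι : Type} [Fintype α] [Fintype ι] (σ : Equiv.Perm (α ⊕ ι)) :
    Fintype.card ι - Fintype.card α ≤
      (Finset.univ.filter fun j : ι => (σ (Sum.inr j)).isRight = true).card := by
  classical
  have h1 : (Finset.univ.filter fun j : ι => ¬ (σ (Sum.inr j)).isRight = true).card ≤
      Fintype.card α := by
    have h2 : (Finset.univ.filter fun j : ι => ¬ (σ (Sum.inr j)).isRight = true).card ≤
        (Finset.univ.map (Function.Embedding.inl : α ↪ α ⊕ ι)).card := by
      refine Finset.card_le_card_of_injOn (fun j => σ (Sum.inr j)) ?_ ?_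
      · intro j hj
        rw [Finset.mem_coe, Finset.mem_filter] at hj
        rw [Finset.mem_coe, Finset.mem_map]
        rcases hs : σ (Sum.inr j) with a | b
        · exact ⟨a, Finset.mem_univ _, hs.symm⟩
        · rw [hs] at hj
          exact absurd rfl hj.2
      · intro j _ j' _ h
        exact Sum.inr_injective (σ.injective h)
    rwa [Finset.card_map, Finset.card_univ] at h2
  have h3 := Finset.card_filter_add_card_filter_not (s := (Finset.univ : Finset ι))
    (fun j => (σ (Sum.inr j)).isRight = true)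
  rw [Finset.card_univ] at h3
  omega

theorem det_block {K : Type} [Field K] (v : AbsoluteValue K ℝ) {α ι : Type} [Fintype α]
    [Fintype ι] [DecidableEq α] [DecidableEq ι]
    (Z : Matrix (α ⊕ ι) (α ⊕ ι) K) (ω χ : ι → ℝ) (ε : ℝ) (hv : IsNonarchimedean v)
    (h0 : 0 ≤ ε) (h1 : ε ≤ 1) (hω : ∀ i, 0 ≤ ω i) (hχ : ∀ j, 0 ≤ χ j)
    (h11 : ∀ a b, v (Z (Sum.inl a) (Sum.inl b)) ≤ 1)
    (h12 : ∀ a j, v (Z (Sum.inl a) (Sum.inr j)) ≤ χ j)
    (h21 : ∀ i b, v (Z (Sum.inr i) (Sum.inl b)) ≤ ω i)
    (h22 : ∀ i j, v (Z (Sum.inr i) (Sum.inr j)) ≤ ε * (ω i * χ j)) :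
    v Z.det ≤ ε ^ (Fintype.card ι - Fintype.card α) * ((∏ i, ω i) * ∏ j, χ j) := by
  classical
  have hW : 0 ≤ (∏ i, ω i) * ∏ j, χ j :=
    mul_nonneg (Finset.prod_nonneg fun i _ => hω i) (Finset.prod_nonneg fun j _ => hχ j)
  rw [Matrix.det_apply']
  refine (hv.apply_sum_le (s := Finset.univ)).trans (Real.iSup_le ?_ (by positivity))
  rintro ⟨σ, -⟩
  rw [map_mul, v_sign, one_mul, map_prod]
  -- weights
  obtain ⟨W, hWdef⟩ : ∃ W : α ⊕ ι → ℝ, W = Sum.elim (fun _ => 1) ω := ⟨_, rfl⟩
  obtain ⟨X, hXdef⟩ : ∃ X : α ⊕ ι → ℝ, X = Sum.elim (fun _ => 1) χ := ⟨_, rfl⟩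
  have hW0 : ∀ x, 0 ≤ W x := by
    rintro (a | i)
    · rw [hWdef]; exact zero_le_one
    · rw [hWdef]; exact hω i
  have hX0 : ∀ x, 0 ≤ X x := by
    rintro (a | i)
    · rw [hXdef]; exact zero_le_one
    · rw [hXdef]; exact hχ i
  have hent : ∀ x y, v (Z x y) ≤
      (if x.isRight = true ∧ y.isRight = true then ε else 1) * (W x * X y) := by
    rintro (a | i) (b | j)
    · rw [if_neg (by simp), hWdef, hXdef]
      simpa using h11 a b
    · rw [if_neg (by simp), hWdef, hXdef]
      simpa using h12 a j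
    · rw [if_neg (by simp), hWdef, hXdef]
      simpa using h21 i b
    · rw [if_pos (by simp), hWdef, hXdef]
      simpa using h22 i j
  have e1 : ∏ y, v (Z (σ y) y) ≤
      ∏ y, ((if (σ y).isRight = true ∧ y.isRight = true then ε else 1) * (W (σ y) * X y)) :=
    Finset.prod_le_prod (fun _ _ => v.nonneg _) fun y _ => hent _ _
  refine e1.trans ?_
  rw [Finset.prod_mul_distrib, Finset.prod_mul_distrib, Equiv.prod_comp σ W]
  have e2 : ∏ x, W x = ∏ i, ω i := by
    rw [Fintype.prod_sum_type, hWdef]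
    simp
  have e3 : ∏ x, X x = ∏ j, χ j := by
    rw [Fintype.prod_sum_type, hXdef]
    simp
  rw [e2, e3]
  refine mul_le_mul_of_nonneg_right ?_ hW
  rw [Fintype.prod_sum_type]
  have e4 : ∏ a : α, (if (σ (Sum.inl a)).isRight = true ∧ (Sum.inl a : α ⊕ ι).isRight = true
      then ε else 1) = 1 := by
    refine Finset.prod_eq_one fun a _ => ?_
    rw [if_neg (by simp)]
  have e5 : ∏ j : ι, (if (σ (Sum.inr j)).isRight = true ∧ (Sum.inr j : α ⊕ ι).isRight = true
      then ε else 1) = ∏ j : ι, (if (σ (Sum.inr j)).isRight = true then ε else 1) := by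
    refine Finset.prod_congr rfl fun j _ => ?_
    simp
  rw [e4, e5, one_mul, Finset.prod_ite, Finset.prod_const, Finset.prod_const, one_pow, mul_one]
  exact pow_le_pow_of_le_one h0 h1 (card_right _)

/-- **Row MNG** -/
theorem mng : MngStmt := by
  classical
  intro K _ v ι G _ _ _ c γ M A B ω χ ε hv h0 h1 hω hχ hA hB hM
  obtain ⟨E, hE⟩ : ∃ E : Matrix ι ι K,
      E = Matrix.of fun i j => M i j - ∑ s, A i s * B (γ i) s j := ⟨_, rfl⟩
  obtain ⟨Z, hZ⟩ : ∃ Z : Matrix ((G × Fin c) ⊕ ι) ((G × Fin c) ⊕ ι) K,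
      Z = Matrix.fromBlocks 1 (Matrix.of fun p j => B p.1 p.2 j)
        (Matrix.of fun i p => -(if γ i = p.1 then A i p.2 else 0)) E := ⟨_, rfl⟩
  have hdet : Z.det = M.det := by
    rw [hZ, Matrix.det_fromBlocks_one₁₁]
    congr 1
    ext i j
    rw [Matrix.sub_apply, Matrix.mul_apply, hE, Matrix.of_apply]
    simp only [Matrix.of_apply, neg_mul, Finset.sum_neg_distrib, sub_neg_eq_add]
    rw [Fintype.sum_prod_type]
    have h2 : ∑ g : G, ∑ s : Fin c, (if γ i = g then A i s else 0) * B g s j =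
        ∑ s, A i s * B (γ i) s j := by
      rw [Finset.sum_eq_single (γ i)]
      · simp
      · intro g _ hg
        refine Finset.sum_eq_zero fun s _ => ?_
        rw [if_neg (Ne.symm hg), zero_mul]
      · intro h
        exact absurd (Finset.mem_univ _) h
    rw [h2]
    ring
  have hb := det_block v Z ω χ ε hv h0 h1 hω hχ (by
      intro a b
      rw [hZ, Matrix.fromBlocks_apply₁₁, Matrix.one_apply]
      split_ifs <;> simp) (by
      intro a j
      rw [hZ, Matrix.fromBlocks_apply₁₂, Matrix.of_apply]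
      exact hB _ _ _) (by
      intro i b
      rw [hZ, Matrix.fromBlocks_apply₂₁, Matrix.of_apply, v.map_neg]
      split_ifs
      · exact hA _ _
      · rw [map_zero]
        exact hω i) (by
      intro i j
      rw [hZ, Matrix.fromBlocks_apply₂₂, hE, Matrix.of_apply]
      exact hM i j)
  rw [hdet, Fintype.card_prod, Fintype.card_fin, mul_comm (Fintype.card G) c] at hb
  exact hb

end Pool.Agent.SZG.H91
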