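import Pool.Agent.SZG.StmtsW

/-!
# SZG row DBL: the duplication inequality at every place (helper91)
-/

set_option autoImplicit false

namespace Pool.Agent.SZG.H91

open scoped BigOperators
open Pool.Agent.THS

theorem dbl (lar : LarStatement) (lna : LnaStatement) : DblStmt := by
  intro K I _ _ v g E L0 c e s T x h i
  have key : ∀ b, (∑ d, (sgn b d : K) * T i d ^ 2) ^ 2
      = (∑ d, (sgn b d : K) * (T (2 • i) d * T 0 d)) * ∑ d, (sgn b d : K) * T 0 d ^ 2 := by
    intro b
    have h1 : ∑ d, (sgn b d : K) * T i d ^ 2 = s * (x i (0, b) * x 0 (0, b)) := by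
      rw [← h.rie 0 b i 0, RG]
      refine Finset.sum_congr rfl fun d _ => ?_
      rw [zero_add, add_zero, sub_zero]
      ring
    have h2 : ∑ d, (sgn b d : K) * (T (2 • i) d * T 0 d) = s * (x i (0, b) * x i (0, b)) := by
      rw [← h.rie 0 b i i, RG]
      refine Finset.sum_congr rfl fun d _ => ?_
      rw [zero_add, sub_self, two_nsmul]
    have h3 : ∑ d, (sgn b d : K) * T 0 d ^ 2 = s * (x 0 (0, b) * x 0 (0, b)) := by
      rw [← h.rie 0 b 0 0, RG]
      refine Finset.sum_congr rfl fun d _ => ?_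
      rw [zero_add, add_zero, sub_zero]
      ring
    rw [h1, h2, h3]
    ring
  exact ⟨fun h2 => lar K v g (T i) (T (2 • i)) (T 0) h2 key,
    fun hv => lna K v g (T i) (T (2 • i)) (T 0) hv key⟩

end Pool.Agent.SZG.H91
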