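import Pool.Agent.SZG.StmtsS

/-!
# SZG row RBD: the size hypothesis of RAL (helper91)
-/

set_option autoImplicit false

namespace Pool.Agent.SZG.H91

open scoped BigOperators
open Pool.Agent.THS

theorem le_nv {K ι : Type} [Field K] [Finite ι] (v : AbsoluteValue K ℝ) (x : ι → K) (i : ι) :
    v (x i) ≤ nv v x :=
  le_ciSup (f := fun i => v (x i)) (Set.finite_range _).bddAbove i

theorem nv_pos {K ι : Type} [Field K] [Finite ι] (v : AbsoluteValue K ℝ) {x : ι → K}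
    (hx : x ≠ 0) : 0 < nv v x := by
  obtain ⟨j, hj⟩ := Function.ne_iff.1 hx
  exact lt_of_lt_of_le (v.pos hj) (le_nv v x j)

theorem rbd (xub : XubStmt) (wxc : WxcStmt) : RbdStmt := by
  intro K I _ _ v θ g E L0 c e s T x W X Z δ A o l b1 h hA hvA ho hb ab k u
  obtain ⟨W0, -, -, hXm, hWm, -, -, -⟩ := wxc K I v L0 c e W X h.wx
  obtain ⟨m, hm⟩ : ∃ m : ℤ, m = (l : ℤ) * k := ⟨_, rfl⟩
  rw [← hm]
  have hx := (xub K I v g E L0 c e s T x W X h.qs h.wx h.na h.v2 (m • Z + b1)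
    (b1 + (2 * u) • δ)).2.2.1
  have hT0 : 0 < nv v (T 0) := nv_pos v (h.qs.T0 0)
  -- positive reals
  obtain ⟨p, hp⟩ : ∃ p, p = X b1 Z := ⟨_, rfl⟩
  obtain ⟨q, hq⟩ : ∃ q, q = X b1 δ := ⟨_, rfl⟩
  have hp0 : 0 < p := by rw [hp]; exact h.wx.xpos _ _
  have hq0 : 0 < q := by rw [hq]; exact h.wx.xpos _ _
  have hD0 : 0 < W δ := h.wx.pos _
  have hB0 : 0 < W b1 := h.wx.pos _
  have hw0 : 0 < W (m • Z) := h.wx.pos _
  have e1 : W (m • Z + b1) = W (m • Z) * W b1 * p ^ m := by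
    rw [h.wx.add, (hXm m Z b1).1, h.wx.xsymm Z b1, hp]
  have e2 : W (b1 + (2 * u) • δ) = W b1 * W δ ^ ((2 * u) ^ 2) * q ^ (2 * u) := by
    rw [h.wx.add, (hXm (2 * u) b1 δ).2, hWm, hq]
  have e3 : W ((2 : ℤ) • b1 + (2 * u) • δ) =
      W b1 ^ (4 : ℕ) * W δ ^ ((2 * u) ^ 2) * (q ^ (2 * u)) ^ 2 := by
    rw [h.wx.add, (hXm 2 b1 ((2 * u) • δ)).1, (hXm (2 * u) b1 δ).2, hWm, hWm, hq]
    norm_cast
  have hmem : (2 * (l : ℤ)) • b1 ∈ L0 := by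
    rw [mul_smul]
    exact L0.zsmul_mem hb 2
  have e4 : v (e ((2 * (l : ℤ)) • b1) Z) = p ^ (2 * (l : ℤ)) := by
    rw [h.wx.ee _ hmem, (hXm _ b1 Z).1, hp]
  have e5 : v (T (m • Z) (o m)) = nv v (T 0) * W (m • Z) := by
    rw [ho]
    have := h.can m 0
    rwa [zero_smul, add_zero] at this
  have e6 : (p ^ (2 * (l : ℤ))) ^ (-k) = ((p ^ m) ^ 2)⁻¹ := by
    rw [← zpow_mul, ← zpow_natCast (p ^ m) 2, ← zpow_mul, ← zpow_neg]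
    congr 1
    rw [hm]
    push_cast
    ring
  have e7 : (W δ ^ 4) ^ (-(u ^ 2)) = (W δ ^ ((2 * u) ^ 2))⁻¹ := by
    rw [← zpow_natCast (W δ) 4, ← zpow_mul, ← zpow_neg]
    congr 1
    push_cast
    ring
  rw [map_mul, map_mul, map_mul, map_mul, map_zpow₀, map_zpow₀, map_inv₀, map_pow, e4, e5, hvA, e6,
    e7]
  obtain ⟨P, hP⟩ : ∃ P, P = p ^ m := ⟨_, rfl⟩
  obtain ⟨DD, hDD⟩ : ∃ D, D = W δ ^ ((2 * u) ^ 2) := ⟨_, rfl⟩
  obtain ⟨Q, hQ⟩ : ∃ Q, Q = q ^ (2 * u) := ⟨_, rfl⟩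
  have hP0 : 0 < P := by rw [hP]; exact zpow_pos hp0 _
  have hDD0 : 0 < DD := by rw [hDD]; exact zpow_pos hD0 _
  have hQ0 : 0 < Q := by rw [hQ]; exact zpow_pos hq0 _
  rw [e1, e2, ← hP, ← hDD, ← hQ] at hx
  rw [e3, ← hP, ← hDD, ← hQ]
  have hle : v s * (v (x (m • Z + b1) ab) * v (x (b1 + (2 * u) • δ) ab)) ≤
      nv v (T 0) ^ 2 * (W (m • Z) * W b1 * P) ^ 2 * (W b1 * DD * Q) ^ 2 := by
    refine le_trans (mul_le_mul_of_nonneg_left (mul_le_mul (le_nv v _ ab) (le_nv v _ ab)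
      (v.nonneg _) ((v.nonneg _).trans (le_nv v _ ab))) (v.nonneg _)) hx
  have hc : 0 < (P ^ 2)⁻¹ * (nv v (T 0) * W (m • Z))⁻¹ * DD⁻¹ := by positivity
  calc v s * v (x (m • Z + b1) ab) * (P ^ 2)⁻¹ * (nv v (T 0) * W (m • Z))⁻¹ *
        (v (x (b1 + (2 * u) • δ) ab) * DD⁻¹)
      = v s * (v (x (m • Z + b1) ab) * v (x (b1 + (2 * u) • δ) ab)) *
          ((P ^ 2)⁻¹ * (nv v (T 0) * W (m • Z))⁻¹ * DD⁻¹) := by ring
    _ ≤ nv v (T 0) ^ 2 * (W (m • Z) * W b1 * P) ^ 2 * (W b1 * DD * Q) ^ 2 *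
          ((P ^ 2)⁻¹ * (nv v (T 0) * W (m • Z))⁻¹ * DD⁻¹) :=
        mul_le_mul_of_nonneg_right hle hc.le
    _ = nv v (T 0) * W (m • Z) * (W b1 ^ 4 * DD * Q ^ 2) := by
        field_simp

end Pool.Agent.SZG.H91
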